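import Mathlib

/-!
# Valuation rings of `ℂ`: composites, algebraic numbers, ramification
-/

set_option autoImplicit false

namespace Pool.Agent.D0H93.ZC

open NumberField IsDedekindDomain

theorem lt_one_iff' {F : Type*} [Field F] (V : ValuationSubring F) (x : F) :
    V.valuation x < 1 ↔ x ∈ V ∧ (x = 0 ∨ x⁻¹ ∉ V) := by
  constructor
  · intro h
    refine ⟨(V.valuation_le_one_iff _).1 h.le, ?_⟩
    by_cases hx : x = 0
    · exact Or.inl hx
    · right
      intro h1
      have h2 := (V.valuation_le_one_iff _).2 h1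
      rw [map_inv₀] at h2
      have h3 : V.valuation x ≠ 0 := by rwa [Valuation.ne_zero_iff]
      have h4 : 1 < (V.valuation x)⁻¹ := (one_lt_inv₀ (zero_lt_iff.2 h3)).2 h
      exact absurd h2 (not_le.2 h4)
  · rintro ⟨h, hx⟩
    refine lt_of_le_of_ne ((V.valuation_le_one_iff _).2 h) ?_
    intro h1
    rcases hx with rfl | hx
    · rw [map_zero] at h1
      exact zero_ne_one h1
    · apply hx
      rw [← V.valuation_le_one_iff, map_inv₀, h1, inv_one]

/-- The composite of a valuation ring and a valuation ring of its residue field. -/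
def comp {F : Type*} [Field F] (V : ValuationSubring F)
    (W : ValuationSubring (IsLocalRing.ResidueField V)) : ValuationSubring F where
  toSubring := (Subring.comap (IsLocalRing.residue V) W.toSubring).map V.subtype
  mem_or_inv_mem' := by
    intro x
    by_cases hx : x ∈ V
    · by_cases h0 : IsLocalRing.residue V ⟨x, hx⟩ ∈ W
      · left
        exact ⟨⟨x, hx⟩, h0, rfl⟩
      · right
        have h1 : (IsLocalRing.residue V ⟨x, hx⟩)⁻¹ ∈ W :=
          (W.mem_or_inv_mem _).resolve_left h0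
        have h2 : IsLocalRing.residue V ⟨x, hx⟩ ≠ 0 := by
          intro h
          apply h0
          rw [h]
          exact zero_mem W
        have h3 : IsUnit (⟨x, hx⟩ : V) := by
          by_contra h
          exact h2 ((IsLocalRing.residue_eq_zero_iff _).2 ((IsLocalRing.mem_maximalIdeal _).2 h))
        obtain ⟨u, hu⟩ := h3
        refine ⟨(u⁻¹ : Vˣ), ?_, ?_⟩
        · change IsLocalRing.residue V ((u⁻¹ : Vˣ) : V) ∈ W
          have h4 : IsLocalRing.residue V ((u⁻¹ : Vˣ) : V) =
              (IsLocalRing.residue V ⟨x, hx⟩)⁻¹ := by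
            rw [← hu]
            apply eq_inv_of_mul_eq_one_left
            rw [← map_mul, Units.inv_mul, map_one]
          rw [h4]
          exact h1
        · change (((u⁻¹ : Vˣ) : V) : F) = x⁻¹
          have h4 : ((u : V) : F) = x := by rw [hu]
          rw [← h4]
          apply eq_inv_of_mul_eq_one_left
          have h5 : (((u⁻¹ : Vˣ) : V) * (u : V) : V) = 1 := Units.inv_mul u
          exact congrArg Subtype.val h5
    · right
      have hinv : x⁻¹ ∈ V := (V.mem_or_inv_mem x).resolve_left hx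
      refine ⟨⟨x⁻¹, hinv⟩, ?_, rfl⟩
      change IsLocalRing.residue V ⟨x⁻¹, hinv⟩ ∈ W
      have h1 : IsLocalRing.residue V ⟨x⁻¹, hinv⟩ = 0 := by
        rw [IsLocalRing.residue_eq_zero_iff, ValuationSubring.valuation_lt_one_iff]
        rw [lt_one_iff']
        refine ⟨hinv, Or.inr ?_⟩
        rwa [inv_inv]
      rw [h1]
      exact zero_mem W

variable {F : Type*} [Field F] {V : ValuationSubring F}
  {W : ValuationSubring (IsLocalRing.ResidueField V)}

theorem mem_comp {x : F} : x ∈ comp V W ↔ ∃ h : x ∈ V, IsLocalRing.residue V ⟨x, h⟩ ∈ W := by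
  constructor
  · rintro ⟨y, hy, rfl⟩
    exact ⟨y.2, hy⟩
  · rintro ⟨h, h1⟩
    exact ⟨⟨x, h⟩, h1, rfl⟩

theorem comp_lt_of_lt {x : F} (hx : V.valuation x < 1) : (comp V W).valuation x < 1 := by
  rw [lt_one_iff'] at hx ⊢
  refine ⟨mem_comp.2 ⟨hx.1, ?_⟩, ?_⟩
  · have h1 : IsLocalRing.residue V ⟨x, hx.1⟩ = 0 := by
      rw [IsLocalRing.residue_eq_zero_iff, ValuationSubring.valuation_lt_one_iff, lt_one_iff']
      exact hx
    rw [h1]
    exact zero_mem W
  · rcases hx.2 with h | h
    · exact Or.inl h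
    · right
      intro h1
      exact h (mem_comp.1 h1).1

theorem eq_one_of_comp {x : F} (hx : (comp V W).valuation x = 1) : V.valuation x = 1 := by
  have h1 : x ∈ comp V W := (ValuationSubring.valuation_le_one_iff _ _).1 hx.le
  have h2 : x⁻¹ ∈ comp V W := by
    rw [← ValuationSubring.valuation_le_one_iff, map_inv₀, hx, inv_one]
  have h3 := (ValuationSubring.valuation_le_one_iff _ _).2 (mem_comp.1 h1).1
  have h4 := (ValuationSubring.valuation_le_one_iff _ _).2 (mem_comp.1 h2).1
  rw [map_inv₀] at h4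
  refine le_antisymm h3 ?_
  have h5 : V.valuation x ≠ 0 := by
    rw [Valuation.ne_zero_iff]
    rintro rfl
    rw [map_zero] at hx
    exact zero_ne_one hx
  have h6 := mul_le_mul_left h4 (V.valuation x)
  rwa [inv_mul_cancel₀ h5, one_mul] at h6

theorem comp_lt_of_residue {x : F} (hx : x ∈ V)
    (h : W.valuation (IsLocalRing.residue V ⟨x, hx⟩) < 1) : (comp V W).valuation x < 1 := by
  by_cases hV : V.valuation x < 1
  · exact comp_lt_of_lt hV
  have h1 : V.valuation x = 1 :=
    le_antisymm ((ValuationSubring.valuation_le_one_iff _ _).2 hx) (not_lt.1 hV)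
  rw [lt_one_iff'] at h
  rw [lt_one_iff']
  refine ⟨mem_comp.2 ⟨hx, h.1⟩, ?_⟩
  right
  intro h2
  obtain ⟨h3, h4⟩ := mem_comp.1 h2
  have hx0 : x ≠ 0 := by
    rintro rfl
    rw [map_zero] at h1
    exact zero_ne_one h1
  have h5 : IsLocalRing.residue V ⟨x⁻¹, h3⟩ * IsLocalRing.residue V ⟨x, hx⟩ = 1 := by
    rw [← map_mul]
    have h6 : (⟨x⁻¹, h3⟩ : V) * ⟨x, hx⟩ = 1 := Subtype.ext (inv_mul_cancel₀ hx0)
    rw [h6, map_one]
  rcases h.2 with h6 | h6
  · rw [h6, mul_zero] at h5
    exact zero_ne_one h5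
  · apply h6
    rw [← eq_inv_of_mul_eq_one_left h5]
    exact h4

/-- Integers prime to the residue characteristic are units. -/
theorem nat_unit {V : ValuationSubring ℂ} {p : ℕ} (hp : p.Prime) (hpV : V.valuation (p : ℂ) < 1)
    {d : ℕ} (hd : ¬ p ∣ d) : V.valuation (d : ℂ) = 1 := by
  have hcop : Nat.Coprime d p := ((Nat.Prime.coprime_iff_not_dvd hp).2 hd).symm
  have h1 : (1 : ℤ) = d * Nat.gcdA d p + p * Nat.gcdB d p := by
    have := Nat.gcd_eq_gcd_ab d p
    rw [hcop] at this
    exact_mod_cast this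
  have hdV : V.valuation (d : ℂ) ≤ 1 := (V.valuation_le_one_iff _).2 (natCast_mem V d)
  refine le_antisymm hdV (not_lt.1 fun hlt => ?_)
  have h2 : V.valuation ((1 : ℤ) : ℂ) < 1 := by
    rw [h1]
    push_cast
    have hz : ∀ z : ℤ, V.valuation (z : ℂ) ≤ 1 := fun z =>
      (V.valuation_le_one_iff _).2 (intCast_mem V z)
    refine Valuation.map_add_lt _ ?_ ?_
    · rw [map_mul]
      exact (mul_le_of_le_one_right' (hz _)).trans_lt hlt
    · rw [map_mul]
      exact (mul_le_of_le_one_right' (hz _)).trans_lt hpV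
  rw [Int.cast_one, map_one] at h2
  exact lt_irrefl _ h2

/-- Algebraic numbers are integral at almost all places. -/
theorem exists_large {ι : Type*} [Finite ι] (w : ι → ℂ) (hw : ∀ i, IsAlgebraic ℚ (w i)) :
    ∃ D : ℕ, ∀ p : ℕ, p.Prime → D < p → ∀ V : ValuationSubring ℂ, V.valuation (p : ℂ) < 1 →
      ∀ i, w i ∈ V := by
  classical
  have := Fintype.ofFinite ι
  have h1 : ∀ i, ∃ a : ℤ, a ≠ 0 ∧ IsIntegral ℤ (a • w i) := by
    intro i
    have h2 : IsAlgebraic ℤ (w i) := (IsFractionRing.isAlgebraic_iff ℤ ℚ ℂ).2 (hw i)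
    obtain ⟨a, ha, h3⟩ := h2.exists_integral_multiple
    exact ⟨a, ha, h3⟩
  choose a ha hint using h1
  refine ⟨∑ i, (a i).natAbs, fun p hp hpD V hpV i => ?_⟩
  have h2 : ¬ p ∣ (a i).natAbs := by
    intro h
    have h3 := Nat.le_of_dvd (Int.natAbs_pos.2 (ha i)) h
    have h4 : (a i).natAbs ≤ ∑ i, (a i).natAbs :=
      Finset.single_le_sum (f := fun i => (a i).natAbs) (fun _ _ => Nat.zero_le _)
        (Finset.mem_univ i)
    omega
  have h3 := nat_unit hp hpV h2
  have h4 : V.valuation ((a i : ℤ) : ℂ) = 1 := by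
    rcases Int.natAbs_eq (a i) with h5 | h5
    · rw [h5, Int.cast_natCast]
      exact h3
    · rw [h5, Int.cast_neg, Int.cast_natCast, Valuation.map_neg]
      exact h3
  have h5 : a i • w i ∈ V := by
    have hB : IsIntegral V (a i • w i) := (hint i).tower_top
    obtain ⟨y, hy⟩ := IsIntegrallyClosed.isIntegral_iff.1 hB
    rw [← hy]
    exact y.2
  rw [zsmul_eq_mul, ← V.valuation_le_one_iff, map_mul, h4, one_mul] at h5
  exact (V.valuation_le_one_iff _).1 h5

/-- The ramification is bounded by the degree. -/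
theorem pow_ne {K : Type} [Field K] [NumberField K] (v : HeightOneSpectrum (𝓞 K)) {p : ℕ}
    (hp : p.Prime) (hpv : (p : 𝓞 K) ∈ v.asIdeal) {N : ℕ} (hN : Module.finrank ℚ K < N) {x : K}
    (hx : v.valuation K x < 1) : v.valuation K x ^ N ≠ v.valuation K (p : K) := by
  intro h
  have hNp : (p : 𝓞 K) ∈ v.asIdeal ^ N := by
    rw [← v.intValuation_le_pow_iff_mem]
    have h1 : v.valuation K ((p : 𝓞 K) : K) = v.intValuation (p : 𝓞 K) := v.valuation_of_algebraMap _
    rw [← h1]
    have h2 : ((p : 𝓞 K) : K) = (p : K) := by simp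
    rw [h2, ← h]
    have h3 : v.valuation K x ≤ WithZero.exp (-1 : ℤ) := by
      by_cases h0 : v.valuation K x = 0
      · rw [h0]
        exact zero_le
      · rw [← WithZero.exp_log h0, WithZero.exp_le_exp]
        have h4 : WithZero.log (v.valuation K x) < 0 := by
          rw [WithZero.log_lt_iff_lt_exp h0, WithZero.exp_zero]
          exact hx
        omega
    calc v.valuation K x ^ N ≤ (WithZero.exp (-1 : ℤ)) ^ N := pow_le_pow_left₀ zero_le h3 N
      _ = WithZero.exp (-(N : ℤ)) := by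
        rw [← WithZero.exp_nsmul]
        simp
  have h1 : v.asIdeal ^ N ∣ Ideal.span {(p : 𝓞 K)} := by
    rw [Ideal.dvd_span_singleton]
    exact hNp
  have h2 := Ideal.absNorm_dvd_absNorm_of_le (Ideal.dvd_iff_le.1 h1)
  have h3 : Ideal.absNorm (Ideal.span {(p : 𝓞 K)}) = p ^ Module.finrank ℚ K := by
    rw [Ideal.absNorm_span_singleton]
    have h4 : (p : 𝓞 K) = algebraMap ℤ (𝓞 K) (p : ℤ) := by simp
    rw [h4, Algebra.norm_algebraMap, RingOfIntegers.rank]
    simp [Int.natAbs_pow]
  rw [map_pow, h3] at h2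
  have h4 : p ∣ Ideal.absNorm v.asIdeal := by
    by_contra hcon
    have hcop : IsCoprime (p : ℤ) (Ideal.absNorm v.asIdeal : ℤ) :=
      Nat.isCoprime_iff_coprime.2 ((Nat.Prime.coprime_iff_not_dvd hp).2 hcon)
    obtain ⟨a, b, hab⟩ := hcop
    apply v.isPrime.ne_top
    rw [Ideal.eq_top_iff_one]
    have h5 : (1 : 𝓞 K) = (a : 𝓞 K) * (p : 𝓞 K) + (b : 𝓞 K) * (Ideal.absNorm v.asIdeal : 𝓞 K) := by
      exact_mod_cast congrArg (fun z : ℤ => (z : 𝓞 K)) hab.symm
    rw [h5]
    exact Ideal.add_mem _ (Ideal.mul_mem_left _ _ hpv)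
      (Ideal.mul_mem_left _ _ (Ideal.absNorm_mem v.asIdeal))
  have h5 : p ^ N ∣ p ^ Module.finrank ℚ K := (pow_dvd_pow_of_dvd h4 N).trans h2
  have h6 := (Nat.pow_dvd_pow_iff_le_right hp.one_lt).1 h5
  omega

end Pool.Agent.D0H93.ZC
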