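import Pool.Agent.TH526.ZL.L
import Pool.Agent.D0H93.ZC.Val

/-!
# General position near the degenerate member of a family
-/

set_option autoImplicit false

namespace Pool.Agent.D0H93.ZC

open MvPolynomial Pool.Agent.TH526.ZL Pool.Agent.W466.ZC

/-- Let no point of the member `t = α` of the family be on `m + 1` of the divisors of the
`A i / B i`. Then for all valuation rings which contain a certain finite set `W`, and all `t` near
to `α`, at most `m` of the values `u i = A i / B i` at a point of the member `t` are non-units. -/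
theorem exists_gp {k : Type} [Field k] [Algebra k ℂ] [IsAlgClosed k] {σ : Type} [Fintype σ]
    {κ : Type} [Finite κ] {n m : ℕ} (G : κ → MvPolynomial σ (Polynomial k))
    (hhom : ∀ i, ∃ e, (G i).IsHomogeneous e) (A B : Fin n → MvPolynomial σ (Polynomial k))
    (d : Fin n → ℕ) (hA : ∀ i, (A i).IsHomogeneous (d i)) (hB : ∀ i, (B i).IsHomogeneous (d i))
    (α : k)
    (hdis : ∀ I : Finset (Fin n), I.card = m + 1 → ∀ y : σ → ℂ,
      (∀ i, aeval y (spec α (G i)) = 0) →
      (∀ i ∈ I, aeval y (spec α (A i)) * aeval y (spec α (B i)) = 0) → y = 0) :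
    ∃ W : Set k, W.Finite ∧ α ∈ W ∧ ∀ V : ValuationSubring ℂ, (∀ z ∈ W, algebraMap k ℂ z ∈ V) →
      ∀ t : k, V.valuation (algebraMap k ℂ (t - α)) < 1 →
      ∀ y : σ → ℂ, y ≠ 0 → (∀ i, aeval y (spec t (G i)) = 0) →
      ∀ u : Fin n → ℂ, (∀ i, aeval y (spec t (B i)) * u i = aeval y (spec t (A i))) →
        {i | V.valuation (u i) ≠ 1}.ncard ≤ m := by
  classical
  have := Fintype.ofFinite κ
  have hcert := fun (I : {I : Finset (Fin n) // I.card = m + 1}) =>
    cert' (k := k) (Empty.elim : Empty → MvPolynomial σ k)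
      (fun b : κ ⊕ I.1 => Sum.elim (fun i => spec α (G i))
        (fun i : I.1 => spec α (A i) * spec α (B i)) b) (fun y _ hb =>
      hdis I.1 I.2 y (fun i => hb (Sum.inl i)) fun i hi => by
        have := hb (Sum.inr ⟨i, hi⟩)
        simp only [Sum.elim_inr] at this
        rwa [map_mul] at this)
  choose M' U hU using hcert
  let W : Set k := (⋃ q : {I : Finset (Fin n) // I.card = m + 1} × σ,
      ⋃ b : κ ⊕ q.1.1, coefsP (U q.1 q.2 b)) ∪
    ((⋃ i, coefsT (A i)) ∪ ((⋃ i, coefsT (B i)) ∪ ((⋃ i, coefsT (G i)) ∪ {α})))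
  have hWfin : W.Finite := by
    refine Set.Finite.union (Set.finite_iUnion fun q => Set.finite_iUnion fun b =>
      coefsP_finite _) (Set.Finite.union (Set.finite_iUnion fun i => coefsT_finite _)
      (Set.Finite.union (Set.finite_iUnion fun i => coefsT_finite _)
      (Set.Finite.union (Set.finite_iUnion fun i => coefsT_finite _) (Set.finite_singleton α))))
  refine ⟨W, hWfin, Or.inr (Or.inr (Or.inr (Or.inr rfl))), ?_⟩
  intro V hW t htα y hy0 hyG u hu
  have hUV : ∀ I j b, ∀ w ∈ (U I j b).support, algebraMap k ℂ ((U I j b).coeff w) ∈ V := by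
    intro I j b w hw
    exact hW _ (Or.inl (Set.mem_iUnion.2 ⟨(I, j), Set.mem_iUnion.2 ⟨b, ⟨w, hw, rfl⟩⟩⟩))
  have hAV : ∀ i w j, algebraMap k ℂ (((A i).coeff w).coeff j) ∈ V := fun i =>
    coefsT_mem V fun z hz => hW z (Or.inr (Or.inl (Set.mem_iUnion.2 ⟨i, hz⟩)))
  have hBV : ∀ i w j, algebraMap k ℂ (((B i).coeff w).coeff j) ∈ V := fun i =>
    coefsT_mem V fun z hz => hW z (Or.inr (Or.inr (Or.inl (Set.mem_iUnion.2 ⟨i, hz⟩))))
  have hGV : ∀ i w j, algebraMap k ℂ (((G i).coeff w).coeff j) ∈ V := fun i =>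
    coefsT_mem V fun z hz => hW z (Or.inr (Or.inr (Or.inr (Or.inl (Set.mem_iUnion.2 ⟨i, hz⟩)))))
  have hαV : algebraMap k ℂ α ∈ V := hW _ (Or.inr (Or.inr (Or.inr (Or.inr rfl))))
  have htV : algebraMap k ℂ t ∈ V := by
    have h1 : algebraMap k ℂ t = algebraMap k ℂ (t - α) + algebraMap k ℂ α := by
      rw [map_sub, sub_add_cancel]
    rw [h1]
    exact add_mem ((ValuationSubring.valuation_le_one_iff _ _).1 htα.le) hαV
  set v := V.valuation with hv
  have hne : (Finset.univ : Finset σ).Nonempty := by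
    by_contra h
    rw [Finset.not_nonempty_iff_eq_empty, Finset.univ_eq_empty_iff] at h
    exact hy0 (funext fun j => (h.false j).elim)
  obtain ⟨j0, -, hj0⟩ := Finset.exists_max_image Finset.univ (fun j => v (y j)) hne
  have hyj0 : y j0 ≠ 0 := by
    intro h
    apply hy0
    funext j
    have h1 := hj0 j (Finset.mem_univ j)
    simp only [h, map_zero, le_zero_iff] at h1
    exact (map_eq_zero v).1 h1
  set z := (y j0)⁻¹ • y with hz
  have hzV : ∀ j, z j ∈ V := by
    intro j
    rw [← ValuationSubring.valuation_le_one_iff, hz, Pi.smul_apply, smul_eq_mul, map_mul, map_inv₀]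
    have h1 := hj0 j (Finset.mem_univ j)
    have h2 : v (y j0) ≠ 0 := (map_ne_zero v).2 hyj0
    calc (v (y j0))⁻¹ * v (y j) ≤ (v (y j0))⁻¹ * v (y j0) := mul_le_mul_right h1 _
      _ = 1 := inv_mul_cancel₀ h2
  have hzG : ∀ i, aeval z (spec t (G i)) = 0 := by
    intro i
    obtain ⟨e, he⟩ := hhom i
    rw [hz, spec_smul he, hyG i, mul_zero]
  have hzu : ∀ i, aeval z (spec t (B i)) * u i = aeval z (spec t (A i)) := by
    intro i
    rw [hz, spec_smul (hA i), spec_smul (hB i), ← hu i]
    ring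
  have hclose : ∀ P : MvPolynomial σ (Polynomial k),
      (∀ w i, algebraMap k ℂ ((P.coeff w).coeff i) ∈ V) →
      v (aeval z (spec t P) - aeval z (spec α P)) < 1 := fun P hP =>
    v_spec_sub V P hP htV hαV htα hzV
  have hclose' : ∀ P : MvPolynomial σ (Polynomial k),
      (∀ w i, algebraMap k ℂ ((P.coeff w).coeff i) ∈ V) → v (aeval z (spec t P)) < 1 →
      v (aeval z (spec α P)) < 1 := by
    intro P hP h
    have h1 : aeval z (spec α P) = aeval z (spec t P) -
        (aeval z (spec t P) - aeval z (spec α P)) := by ring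
    rw [h1]
    exact Valuation.map_sub_lt _ h (hclose P hP)
  by_contra hcon
  push Not at hcon
  -- choose `m + 1` coordinates
  obtain ⟨I, hI1, hI2⟩ : ∃ I : Finset (Fin n), (∀ i ∈ I, v (u i) ≠ 1) ∧ I.card = m + 1 := by
    have h1 : {i | V.valuation (u i) ≠ 1}.ncard =
        (Finset.univ.filter fun i => V.valuation (u i) ≠ 1).card := by
      rw [← Set.ncard_coe_finset]
      congr 1
      ext i
      simp
    rw [h1] at hcon
    obtain ⟨I, hI, hc⟩ := Finset.exists_subset_card_eq (Nat.succ_le_of_lt hcon)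
    exact ⟨I, fun i hi => (Finset.mem_filter.1 (hI hi)).2, hc⟩
  have hltG : ∀ i, v (aeval z (spec α (G i))) < 1 := by
    intro i
    refine hclose' (G i) (hGV i) ?_
    rw [hzG i, map_zero]
    exact zero_lt_one
  have hle : ∀ (P : MvPolynomial σ (Polynomial k)) (s : k),
      (∀ w i, algebraMap k ℂ ((P.coeff w).coeff i) ∈ V) → algebraMap k ℂ s ∈ V →
      v (aeval z (spec s P)) ≤ 1 := fun P s hP hs =>
    (ValuationSubring.valuation_le_one_iff _ _).2 (aeval_spec_mem V _ hP hs hzV)
  have hlt : ∀ i ∈ I, v (aeval z (spec α (A i)) * aeval z (spec α (B i))) < 1 := by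
    intro i hi
    have h1 := hzu i
    have h2 := congrArg v h1
    rw [map_mul] at h2
    rw [map_mul]
    rcases lt_or_gt_of_ne (hI1 i hi) with h3 | h3
    · have h4 : v (aeval z (spec t (A i))) < 1 := by
        rw [← h2]
        exact (mul_le_of_le_one_left' (hle _ _ (hBV i) htV)).trans_lt h3
      exact (mul_le_of_le_one_right' (hle _ _ (hBV i) hαV)).trans_lt (hclose' _ (hAV i) h4)
    · have h4 : v (aeval z (spec t (B i))) < 1 := by
        by_contra h5
        push Not at h5
        have h6 := hle _ _ (hAV i) htV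
        rw [← h2] at h6
        have h7 : (1 : V.ValueGroup) < v (aeval z (spec t (B i))) * v (u i) :=
          lt_of_lt_of_le h3 (le_mul_of_one_le_left' h5)
        exact absurd h6 (not_le.2 h7)
      exact (mul_le_of_le_one_left' (hle _ _ (hAV i) hαV)).trans_lt (hclose' _ (hBV i) h4)
  have h1 := hU ⟨I, hI2⟩ z (fun i => i.elim) j0
  have h2 : z j0 = 1 := by
    rw [hz, Pi.smul_apply, smul_eq_mul, inv_mul_cancel₀ hyj0]
  rw [h2, one_pow] at h1
  have h3 : v (∑ b : κ ⊕ I, aeval z (U ⟨I, hI2⟩ j0 b) *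
      aeval z (Sum.elim (fun i => spec α (G i))
        (fun i : I => spec α (A i) * spec α (B i)) b)) < 1 := by
    refine Valuation.map_sum_lt _ one_ne_zero fun b _ => ?_
    rw [map_mul]
    refine (mul_le_of_le_one_left' ((ValuationSubring.valuation_le_one_iff _ _).2
      (aeval_mem V _ (hUV ⟨I, hI2⟩ j0 b) hzV))).trans_lt ?_
    rcases b with i | i
    · exact hltG i
    · simp only [Sum.elim_inr, map_mul (aeval z)]
      exact hlt i i.2
  rw [← h1, map_one] at h3
  exact lt_irrefl _ h3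

end Pool.Agent.D0H93.ZC
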