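import Mathlib

/-!
# Powers of split primes are norms
-/

set_option autoImplicit false

namespace Pool.Agent.D0H93.ZC

/-- Square roots modulo powers of `p`. -/
theorem exists_root {p : ℕ} (hp : p.Prime) (hp2 : p ≠ 2) {Δ : ℤ} {s : ℤ} (hs0 : ¬ (p : ℤ) ∣ s)
    (hs : (p : ℤ) ∣ s ^ 2 + Δ) (k : ℕ) :
    ∃ r : ℤ, (p : ℤ) ^ k ∣ r ^ 2 + Δ ∧ (p : ℤ) ∣ r - s := by
  have hpz : Prime (p : ℤ) := Nat.prime_iff_prime_int.1 hp
  rcases k with _ | k
  · exact ⟨s, by simp, by simp⟩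
  induction k with
  | zero => exact ⟨s, by simpa using hs, by simp⟩
  | succ k ih =>
    obtain ⟨r, ⟨a, ha⟩, hr⟩ := ih
    have h2r : IsCoprime (2 * r) (p : ℤ) := by
      rw [isCoprime_comm, hpz.coprime_iff_not_dvd]
      intro h
      rcases hpz.dvd_or_dvd h with h | h
      · have h1 : p ∣ 2 := by exact_mod_cast h
        exact hp2 ((Nat.prime_dvd_prime_iff_eq hp Nat.prime_two).1 h1)
      · exact hs0 (by simpa using dvd_sub h hr)
    obtain ⟨u, v, huv⟩ := h2r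
    refine ⟨r - (p : ℤ) ^ (k + 1) * (u * a), ?_, ?_⟩
    · have h3 : (r - (p : ℤ) ^ (k + 1) * (u * a)) ^ 2 + Δ =
          (p : ℤ) ^ (k + 1) * a * (1 - u * (2 * r)) + (p : ℤ) ^ (k + 1 + (k + 1)) * (u * a) ^ 2 := by
        rw [pow_add]
        linear_combination ha
      rw [h3, ← huv, add_sub_cancel_left]
      refine dvd_add ⟨a * v, by ring⟩ (Dvd.dvd.mul_right (pow_dvd_pow _ (by omega)) _)
    · have h4 : r - (p : ℤ) ^ (k + 1) * (u * a) - s = (r - s) - (p : ℤ) * (p ^ k * (u * a)) := by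
        ring
      rw [h4]
      exact dvd_sub hr ⟨_, rfl⟩

/-- Square roots congruent modulo `p` are congruent modulo powers of `p`. -/
theorem root_unique {p : ℕ} (hp : p.Prime) (hp2 : p ≠ 2) {Δ : ℤ} {s : ℤ} (hs0 : ¬ (p : ℤ) ∣ s)
    {k : ℕ} {r r' : ℤ} (h : (p : ℤ) ^ k ∣ r ^ 2 + Δ) (h' : (p : ℤ) ^ k ∣ r' ^ 2 + Δ)
    (hr : (p : ℤ) ∣ r - s) (hr' : (p : ℤ) ∣ r' - s) : (p : ℤ) ^ k ∣ r - r' := by
  have hpz : Prime (p : ℤ) := Nat.prime_iff_prime_int.1 hp
  have h1 : (p : ℤ) ^ k ∣ (r - r') * (r + r') := by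
    have h2 := dvd_sub h h'
    have h3 : (r - r') * (r + r') = r ^ 2 + Δ - (r' ^ 2 + Δ) := by ring
    rwa [h3]
  have h4 : IsCoprime ((p : ℤ) ^ k) (r + r') := by
    refine IsCoprime.pow_left ((hpz.coprime_iff_not_dvd).2 fun h5 => ?_)
    have h6 : (p : ℤ) ∣ 2 * s := by
      have h7 : 2 * s = (r + r') - (r - s) - (r' - s) := by ring
      rw [h7]
      exact dvd_sub (dvd_sub h5 hr) hr'
    rcases hpz.dvd_or_dvd h6 with h | h
    · have h1 : p ∣ 2 := by exact_mod_cast h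
      exact hp2 ((Nat.prime_dvd_prime_iff_eq hp Nat.prime_two).1 h1)
    · exact hs0 h
  exact h4.dvd_of_dvd_mul_right h1

/-- Thue's lemma. -/
theorem thue (N : ℕ) (hN : 0 < N) (r : ℤ) : ∃ x y : ℤ, (x ≠ 0 ∨ y ≠ 0) ∧ x ^ 2 ≤ N ∧ y ^ 2 ≤ N ∧
    (N : ℤ) ∣ x - r * y := by
  classical
  have : NeZero N := ⟨hN.ne'⟩
  set q := Nat.sqrt N with hq
  let f : Fin (q + 1) × Fin (q + 1) → ZMod N := fun z => ((z.1 : ℕ) : ZMod N) - (r : ZMod N) *
    ((z.2 : ℕ) : ZMod N)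
  have hcard : Fintype.card (ZMod N) < Fintype.card (Fin (q + 1) × Fin (q + 1)) := by
    rw [ZMod.card, Fintype.card_prod, Fintype.card_fin]
    exact Nat.lt_succ_sqrt N
  obtain ⟨z, z', hne, hf⟩ := Fintype.exists_ne_map_eq_of_card_lt f hcard
  have hqN : ((q : ℤ)) ^ 2 ≤ N := by
    have := Nat.sqrt_le' N
    exact_mod_cast this
  have hsq : ∀ a b : Fin (q + 1), (((a : ℕ) : ℤ) - ((b : ℕ) : ℤ)) ^ 2 ≤ N := by
    intro a b
    refine le_trans ?_ hqN
    have ha := a.2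
    have hb := b.2
    apply sq_le_sq'
    · omega
    · omega
  refine ⟨((z.1 : ℕ) : ℤ) - ((z'.1 : ℕ) : ℤ), ((z.2 : ℕ) : ℤ) - ((z'.2 : ℕ) : ℤ), ?_, hsq _ _,
    hsq _ _, ?_⟩
  · by_contra hcon
    push Not at hcon
    apply hne
    refine Prod.ext (Fin.ext ?_) (Fin.ext ?_)
    · have := hcon.1
      omega
    · have := hcon.2
      omega
  · rw [← ZMod.intCast_zmod_eq_zero_iff_dvd]
    push_cast
    have h1 : f z - f z' = 0 := sub_eq_zero.2 hf
    simp only [f] at h1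
    rw [← h1]
    ring

theorem descend {p : ℕ} (hp : p.Prime) {Δ : ℤ} (hpΔ : ¬ (p : ℤ) ∣ Δ) : ∀ (e : ℕ)
    (u w r : ℤ), 0 < e → u ^ 2 + Δ * w ^ 2 = (p : ℤ) ^ e → (p : ℤ) ^ e ∣ r ^ 2 + Δ →
    (p : ℤ) ^ e ∣ u - r * w →
    ∃ (e' : ℕ) (u' w' : ℤ), 0 < e' ∧ u' ^ 2 + Δ * w' ^ 2 = (p : ℤ) ^ e' ∧ ¬ (p : ℤ) ∣ u' := by
  have hpz : Prime (p : ℤ) := Nat.prime_iff_prime_int.1 hp
  intro e
  induction e using Nat.strong_induction_on with
  | _ e ih =>
    intro u w r he huw hr hur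
    by_cases hu : (p : ℤ) ∣ u
    · have hpe : (p : ℤ) ∣ (p : ℤ) ^ e := dvd_pow_self _ he.ne'
      have hw : (p : ℤ) ∣ w := by
        have h1 : (p : ℤ) ∣ Δ * w ^ 2 := by
          have h2 : Δ * w ^ 2 = (p : ℤ) ^ e - u ^ 2 := by linarith
          rw [h2]
          exact dvd_sub hpe (dvd_pow hu two_ne_zero)
        rcases hpz.dvd_or_dvd h1 with h | h
        · exact absurd h hpΔ
        · exact hpz.dvd_of_dvd_pow h
      obtain ⟨u1, rfl⟩ := hu
      obtain ⟨w1, rfl⟩ := hw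
      have hp0 : (p : ℤ) ≠ 0 := hpz.ne_zero
      -- `e ≥ 2`
      obtain ⟨e', rfl⟩ : ∃ e', e = e' + 1 := ⟨e - 1, by omega⟩
      have h3 : (p : ℤ) * (u1 ^ 2 + Δ * w1 ^ 2) = (p : ℤ) ^ e' := by
        have h4 : (p : ℤ) * (p * (u1 ^ 2 + Δ * w1 ^ 2)) = p * (p : ℤ) ^ e' := by
          rw [← pow_succ']
          rw [← huw]
          ring
        exact mul_left_cancel₀ hp0 h4
      have h5 : (p : ℤ) ^ e' ∣ u1 - r * w1 := by
        have h6 : (p : ℤ) * p ^ e' ∣ p * (u1 - r * w1) := by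
          rw [← pow_succ']
          have h7 : (p : ℤ) * (u1 - r * w1) = p * u1 - r * (p * w1) := by ring
          rwa [h7]
        exact (mul_dvd_mul_iff_left hp0).1 h6
      rcases e' with _ | e'
      · rw [pow_zero] at h3
        exact absurd (IsUnit.of_mul_eq_one _ h3) hpz.not_isUnit
      have h8 : u1 ^ 2 + Δ * w1 ^ 2 = (p : ℤ) ^ e' := by
        rw [pow_succ' (p : ℤ) e'] at h3
        exact mul_left_cancel₀ hp0 h3
      have hr' : (p : ℤ) ^ (e' + 1) ∣ r ^ 2 + Δ :=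
        (pow_dvd_pow _ (by omega)).trans hr
      rcases Nat.eq_zero_or_pos e' with h0 | h0
      · subst h0
        rw [pow_zero] at h8
        exfalso
        have h9 : (p : ℤ) ∣ 1 := by
          rw [← h8]
          have h10 : u1 ^ 2 + Δ * w1 ^ 2 = (u1 - r * w1) * (u1 + r * w1) + (r ^ 2 + Δ) * w1 ^ 2 := by
            ring
          rw [h10]
          rw [zero_add, pow_one] at h5 hr'
          exact dvd_add (h5.mul_right _) (hr'.mul_right _)
        exact hpz.not_isUnit (isUnit_of_dvd_one h9)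
      · exact ih e' (by omega) u1 w1 r h0 h8 ((pow_dvd_pow _ (by omega)).trans hr')
          ((pow_dvd_pow _ (by omega)).trans h5)
    · exact ⟨e, u, w, he, huw, hu⟩

theorem exists_norm {p : ℕ} (hp : p.Prime) (hp2 : p ≠ 2) {Δ : ℕ} (hΔ : 0 < Δ) (hpΔ : Δ + 1 < p)
    {s : ℤ} (hs : (p : ℤ) ∣ s ^ 2 + Δ) :
    ∃ (e : ℕ) (u w : ℤ), 0 < e ∧ u ^ 2 + Δ * w ^ 2 = (p : ℤ) ^ e ∧ ¬ (p : ℤ) ∣ u := by
  have hpz : Prime (p : ℤ) := Nat.prime_iff_prime_int.1 hp
  have hΔp : ¬ (p : ℤ) ∣ (Δ : ℤ) := by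
    intro h
    have h1 : p ∣ Δ := by exact_mod_cast h
    have := Nat.le_of_dvd hΔ h1
    omega
  have hs0 : ¬ (p : ℤ) ∣ s := by
    intro h
    exact hΔp (by simpa using dvd_sub hs (dvd_pow h two_ne_zero))
  choose r hr1 hr2 using fun k => exists_root hp hp2 hs0 hs k
  have hth := fun k => thue (p ^ k) (pow_pos hp.pos k) (r k)
  choose x y hne hx hy hxy using hth
  have hpk : ∀ k, ((p ^ k : ℕ) : ℤ) = (p : ℤ) ^ k := fun k => by push_cast; rfl
  simp only [hpk] at hx hy hxy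
  have hdvd : ∀ k, (p : ℤ) ^ k ∣ x k ^ 2 + Δ * y k ^ 2 := by
    intro k
    have h1 : x k ^ 2 + Δ * y k ^ 2 = (x k - r k * y k) * (x k + r k * y k) +
        (r k ^ 2 + Δ) * y k ^ 2 := by ring
    rw [h1]
    exact dvd_add ((hxy k).mul_right _) ((hr1 k).mul_right _)
  choose m hm using hdvd
  have hppos : ∀ k, (0 : ℤ) < (p : ℤ) ^ k := fun k => pow_pos (by exact_mod_cast hp.pos) k
  have hΔ' : (0 : ℤ) < Δ := by exact_mod_cast hΔ
  have hmpos : ∀ k, 0 < m k := by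
    intro k
    have h1 : 0 < x k ^ 2 + Δ * y k ^ 2 := by
      rcases hne k with h | h
      · have := sq_nonneg (y k)
        have := pow_pos (abs_pos.2 h) 2
        rw [sq_abs] at this
        positivity
      · have := sq_nonneg (x k)
        have := pow_pos (abs_pos.2 h) 2
        rw [sq_abs] at this
        positivity
    rw [hm k] at h1
    exact pos_of_mul_pos_right h1 (hppos k).le
  have hmle : ∀ k, m k ≤ Δ + 1 := by
    intro k
    have h1 : (p : ℤ) ^ k * m k ≤ (p : ℤ) ^ k * (Δ + 1) := by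
      rw [← hm k]
      have h2 := hx k
      have h3 := mul_le_mul_of_nonneg_left (hy k) hΔ'.le
      linarith
    exact le_of_mul_le_mul_left h1 (hppos k)
  -- pigeonhole
  let g : ℕ → Fin (Δ + 2) × Fin (Δ + 2) × Fin (Δ + 2) := fun k =>
    (⟨(m k).toNat, by have := hmle k; have := hmpos k; omega⟩,
      ⟨(x k % m k).toNat, by
        have h1 := hmle k
        have h2 := Int.emod_lt_of_pos (x k) (hmpos k)
        have h3 := Int.emod_nonneg (x k) (hmpos k).ne'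
        omega⟩,
      ⟨(y k % m k).toNat, by
        have h1 := hmle k
        have h2 := Int.emod_lt_of_pos (y k) (hmpos k)
        have h3 := Int.emod_nonneg (y k) (hmpos k).ne'
        omega⟩)
  obtain ⟨k, l, hkl, hg⟩ : ∃ k l, k < l ∧ g k = g l := by
    obtain ⟨k, l, hne, h⟩ := Finite.exists_ne_map_eq_of_infinite g
    rcases lt_or_gt_of_ne hne with h1 | h1
    · exact ⟨k, l, h1, h⟩
    · exact ⟨l, k, h1, h.symm⟩
  simp only [g, Prod.mk.injEq, Fin.mk.injEq] at hg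
  obtain ⟨hg1, hg2, hg3⟩ := hg
  have hmm : m l = m k := by
    have := hmpos k
    have := hmpos l
    omega
  have hxx : m k ∣ x l - x k := by
    rw [← Int.modEq_iff_dvd]
    have h1 := Int.emod_nonneg (x k) (hmpos k).ne'
    have h2 := Int.emod_nonneg (x l) (hmpos l).ne'
    unfold Int.ModEq
    rw [hmm] at hg2 h2
    omega
  have hyy : m k ∣ y l - y k := by
    rw [← Int.modEq_iff_dvd]
    have h1 := Int.emod_nonneg (y k) (hmpos k).ne'
    have h2 := Int.emod_nonneg (y l) (hmpos l).ne'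
    unfold Int.ModEq
    rw [hmm] at hg3 h2
    omega
  have hrr : (p : ℤ) ^ k ∣ r l - r k := root_unique hp hp2 hs0
    ((pow_dvd_pow _ hkl.le).trans (hr1 l)) (hr1 k) (hr2 l) (hr2 k)
  have hxk : (p : ℤ) ^ k ∣ x k - r l * y k := by
    have h1 : x k - r l * y k = (x k - r k * y k) - (r l - r k) * y k := by ring
    rw [h1]
    exact dvd_sub (hxy k) (hrr.mul_right _)
  have hxl : (p : ℤ) ^ k ∣ x l - r l * y l := (pow_dvd_pow _ hkl.le).trans (hxy l)
  have hrl : (p : ℤ) ^ k ∣ r l ^ 2 + Δ := (pow_dvd_pow _ hkl.le).trans (hr1 l)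
  have hmp : IsCoprime (m k) (p : ℤ) := by
    rw [isCoprime_comm, hpz.coprime_iff_not_dvd]
    intro h
    have := Int.le_of_dvd (hmpos k) h
    have := hmle k
    omega
  have hcop : IsCoprime (m k) ((p : ℤ) ^ k) := hmp.pow_right
  -- the quotient
  have hU1 : m k ∣ x l * x k + Δ * (y l * y k) := by
    have h1 : x l * x k + Δ * (y l * y k) = (x k ^ 2 + Δ * y k ^ 2) + (x l - x k) * x k +
        (y l - y k) * (Δ * y k) := by ring
    rw [h1, hm k]
    exact dvd_add (dvd_add (Dvd.intro_left _ rfl) (hxx.mul_right _)) (hyy.mul_right _)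
  have hW1 : m k ∣ y l * x k - x l * y k := by
    have h1 : y l * x k - x l * y k = (y l - y k) * x k - (x l - x k) * y k := by ring
    rw [h1]
    exact dvd_sub (hyy.mul_right _) (hxx.mul_right _)
  have hU2 : (p : ℤ) ^ k ∣ x l * x k + Δ * (y l * y k) := by
    have h1 : x l * x k + Δ * (y l * y k) = (x l - r l * y l) * x k +
        (x k - r l * y k) * (r l * y l) + (r l ^ 2 + Δ) * (y l * y k) := by ring
    rw [h1]
    exact dvd_add (dvd_add (hxl.mul_right _) (hxk.mul_right _)) (hrl.mul_right _)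
  have hW2 : (p : ℤ) ^ k ∣ y l * x k - x l * y k := by
    have h1 : y l * x k - x l * y k = (x k - r l * y k) * y l - (x l - r l * y l) * y k := by ring
    rw [h1]
    exact dvd_sub (hxk.mul_right _) (hxl.mul_right _)
  obtain ⟨u, hu⟩ := hcop.mul_dvd hU1 hU2
  obtain ⟨w, hw⟩ := hcop.mul_dvd hW1 hW2
  obtain ⟨e, he⟩ : ∃ e, l = k + e := ⟨l - k, by omega⟩
  have he0 : 0 < e := by omega
  have hmk0 : m k ≠ 0 := (hmpos k).ne'
  have hpk0 : (p : ℤ) ^ k ≠ 0 := (hppos k).ne'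
  have hnorm : u ^ 2 + Δ * w ^ 2 = (p : ℤ) ^ e := by
    have h1 : (x l * x k + Δ * (y l * y k)) ^ 2 + Δ * (y l * x k - x l * y k) ^ 2 =
        (x k ^ 2 + Δ * y k ^ 2) * (x l ^ 2 + Δ * y l ^ 2) := by ring
    rw [hu, hw, hm k, hm l, hmm] at h1
    have h2 : (m k * (p : ℤ) ^ k) ^ 2 * (u ^ 2 + Δ * w ^ 2) =
        (m k * (p : ℤ) ^ k) ^ 2 * (p : ℤ) ^ e := by
      have h3 : (p : ℤ) ^ l = (p : ℤ) ^ k * (p : ℤ) ^ e := by rw [he, pow_add]
      rw [h3] at h1
      linear_combination h1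
    exact mul_left_cancel₀ (pow_ne_zero 2 (mul_ne_zero hmk0 hpk0)) h2
  have hur : (p : ℤ) ^ e ∣ u - r l * w := by
    have h1 : (p : ℤ) ^ l ∣ (x l * x k + Δ * (y l * y k)) - r l * (y l * x k - x l * y k) := by
      have h2 : (x l * x k + Δ * (y l * y k)) - r l * (y l * x k - x l * y k) =
          (x l - r l * y l) * (x k + r l * y k) + (r l ^ 2 + Δ) * (y l * y k) := by ring
      rw [h2]
      exact dvd_add ((hxy l).mul_right _) ((hr1 l).mul_right _)
    rw [hu, hw] at h1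
    have h3 : (p : ℤ) ^ k * (p : ℤ) ^ e ∣ (p : ℤ) ^ k * (m k * (u - r l * w)) := by
      rw [← pow_add, ← he]
      have h4 : (p : ℤ) ^ k * (m k * (u - r l * w)) = m k * (p : ℤ) ^ k * u -
        r l * (m k * (p : ℤ) ^ k * w) := by ring
      rw [h4]
      exact h1
    have h5 := (mul_dvd_mul_iff_left hpk0).1 h3
    exact (hmp.symm.pow_left).dvd_of_dvd_mul_left h5
  exact descend hp hΔp e u w (r l) he0 hnorm ((pow_dvd_pow _ (by omega)).trans (hr1 l)) hur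

end Pool.Agent.D0H93.ZC
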