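import Pool.Agent.N135.ZO.Glob
import Pool.Agent.D0H93.ZC.Norm

/-!
# The local theorem near a point of `X(1)^n` whose coordinates are ordinary CM points or a cusp
-/

set_option autoImplicit false

namespace Pool.Agent.D0H93.ZC

open UpperHalfPlane H294ZP Pool.Agent.N135.ZO

variable {V : ValuationSubring ℂ} {p : ℕ}

/-- `x` is near to the limit `s` (`none` is the cusp, `some z` the value `j(z)`), different from
it, and the distance is not a distance of singular moduli. -/
def Near (V : ValuationSubring ℂ) (p : ℕ) : Option ℍ → ℂ → Prop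
  | none, x => 1 < V.valuation x
  | some z, x => x ≠ jj z ∧ V.valuation (x - jj z) < 1 ∧
      ∀ k : ℕ, V.valuation (x - jj z) ^ ((p - 1) * p ^ k) ≠ V.valuation (p : ℂ)

theorem local_mixed (hl : p.Prime) (hl2 : p ≠ 2) (hpV : V.valuation (p : ℂ) < 1) {n r : ℕ}
    (τ : Fin n → Option ℍ) (hcm : ∀ i z, τ i = some z → IsCM z)
    (hord : ∀ i z, τ i = some z → OrdAt p z)
    (h0 : ∀ i z, τ i = some z → V.valuation (jj z) = 1)
    (h1 : ∀ i z, τ i = some z → V.valuation (jj z - 1728) = 1)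
    (hiso : ∀ i j z z', i ≠ j → τ i = some z → τ j = some z' → ¬ Isog (jj z) (jj z'))
    (hcusp : ∀ i j, τ i = none → τ j = none → i = j)
    (Z : SpecialDatum n r) {x : Fin n → ℂ} (hx : x ∈ Z.locus) (J : Finset (Fin n))
    (hJ : ∀ i ∈ J, Near V p (τ i) (x i)) : J.card ≤ r := by
  classical
  obtain ⟨P⟩ := exists_pkg hl hl2
  have hmem : ∀ i z, τ i = some z → jj z ∈ V := fun i z hz =>
    (V.valuation_le_one_iff _).1 (h0 i z hz).le
  have hG : ∀ i z, τ i = some z → G0 P V (jj z) := by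
    intro i z hz
    obtain ⟨e, M, he, hdet, htr, hfix⟩ := hord i z hz
    exact ⟨hmem i z hz, ord_of_fix hl hpV P (hmem i z hz) he hdet htr hfix, h0 i z hz, h1 i z hz⟩
  obtain ⟨zz, hzz⟩ := hx
  have hnear : ∀ i ∈ J, ∀ z, τ i = some z → x i ∈ V := by
    intro i hi z hz
    have h2 := hJ i hi
    rw [hz] at h2
    have h3 : x i = jj z + (x i - jj z) := by ring
    rw [h3]
    exact V.add_mem _ _ (hmem i z hz) ((V.valuation_le_one_iff _).1 h2.2.1.le)
  have hfar : ∀ i ∈ J, τ i = none → x i ∉ V := by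
    intro i hi hn hxV
    have h2 := hJ i hi
    rw [hn] at h2
    exact absurd ((V.valuation_le_one_iff _).2 hxV) (not_le.2 h2)
  have hnone : ∀ i ∈ J, Z.cls i ≠ none := by
    intro i hi hn
    have hxi := (hzz i).1 hn
    rcases hτ : τ i with _ | z
    · apply hfar i hi hτ
      rw [hxi]
      exact mem_of_integral_int V (singular_modulus_integral _ (Z.isCM i))
    · have h2 := hJ i hi
      rw [hτ] at h2
      obtain ⟨h3, h4, h5⟩ := h2
      rw [hxi] at h3 h4 h5
      obtain ⟨k, hk⟩ := cm_radius hl hl2 hpV P (hcm i z hτ) (Z.isCM i) (hG i z hτ) h4 h3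
      exact h5 k hk
  have hinj : ∀ i ∈ J, ∀ j ∈ J, Z.cls i = Z.cls j → i = j := by
    intro i hi j hj hij
    by_contra hne
    obtain ⟨k, hk⟩ := Option.ne_none_iff_exists'.1 (hnone i hi)
    obtain ⟨w, hw1, hw2⟩ := (hzz i).2 k hk
    obtain ⟨w', hw1', hw2'⟩ := (hzz j).2 k (hij ▸ hk)
    obtain ⟨A, hA, hrel⟩ := rel_of_two (M := Z.mat i) (M' := Z.mat j) (z := zz k) (Z.det_pos i)
      (Z.det_pos j) hw1 hw1'
    obtain ⟨A', hA', hrel'⟩ := rel_of_two (M := Z.mat j) (M' := Z.mat i) (z := zz k) (Z.det_pos j)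
      (Z.det_pos i) hw1' hw1
    rcases hτi : τ i with _ | z <;> rcases hτj : τ j with _ | z'
    · exact hne (hcusp i j hτi hτj)
    · apply hfar i hi hτi
      rw [hw2]
      refine rel_mem hA' hrel' ?_
      rw [← hw2']
      exact hnear j hj z' hτj
    · apply hfar j hj hτj
      rw [hw2']
      refine rel_mem hA hrel ?_
      rw [← hw2]
      exact hnear i hi z hτi
    · have h2 := hJ i hi
      have h3 := hJ j hj
      rw [hτi] at h2
      rw [hτj] at h3
      refine hiso i j z z' hne hτi hτj (near_isog hl hl2 hpV P (hcm i z hτi) (hcm j z' hτj)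
        (hG i z hτi) (hG j z' hτj) hA hrel ?_ ?_)
      · rw [← hw2]
        exact h2.2.1
      · rw [← hw2']
        exact h3.2.1
  have hr : J.card = (J.image Z.cls).card := by
    rw [Finset.card_image_of_injOn]
    intro i hi j hj hij
    exact hinj i hi j hj hij
  rw [hr]
  have hsub : J.image Z.cls ⊆ (Finset.univ : Finset (Fin r)).image some := by
    intro c hc
    obtain ⟨i, hi, rfl⟩ := Finset.mem_image.1 hc
    obtain ⟨k, hk⟩ := Option.ne_none_iff_exists'.1 (hnone i hi)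
    rw [hk]
    exact Finset.mem_image_of_mem _ (Finset.mem_univ k)
  calc (J.image Z.cls).card ≤ _ := Finset.card_le_card hsub
    _ ≤ (Finset.univ : Finset (Fin r)).card := Finset.card_image_le
    _ = r := by simp

/-- A CM point whose equation has a root modulo a large prime is ordinary. -/
theorem ordAt_of_root (hl : p.Prime) (hl2 : p ≠ 2) {τ : ℍ} {a b c : ℤ} (ha : a ≠ 0)
    (habc : (a : ℂ) * (τ : ℂ) ^ 2 + b * τ + c = 0) (hp : (4 * a * c - b ^ 2).toNat + 1 < p)
    {s : ℤ} (hs : (p : ℤ) ∣ a * s ^ 2 + b * s + c) : OrdAt p τ := by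
  have hK := H610.disc_pos τ a b c ha habc
  obtain ⟨Δ, hΔ⟩ : ∃ Δ : ℕ, (Δ : ℤ) = 4 * a * c - b ^ 2 :=
    ⟨(4 * a * c - b ^ 2).toNat, Int.toNat_of_nonneg hK.le⟩
  rw [← hΔ, Int.toNat_natCast] at hp
  have hΔ0 : 0 < Δ := by
    rw [← hΔ] at hK
    exact_mod_cast hK
  have hs' : (p : ℤ) ∣ (2 * a * s + b) ^ 2 + Δ := by
    have h1 : (2 * a * s + b) ^ 2 + (Δ : ℤ) = 4 * a * (a * s ^ 2 + b * s + c) := by
      rw [hΔ]
      ring
    rw [h1]
    exact hs.mul_left _
  obtain ⟨e, u, w, he, huw, hu⟩ := exists_norm hl hl2 hΔ0 hp hs'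
  refine ⟨e, !![u - b * w, -(2 * c * w); 2 * a * w, u + b * w], he, ?_, ?_, ?_⟩
  · rw [Matrix.det_fin_two_of, ← huw, hΔ]
    ring
  · rw [Matrix.trace_fin_two_of]
    intro h
    have h1 : (p : ℤ) ∣ 2 * u := by
      have h2 : 2 * u = u - b * w + (u + b * w) := by ring
      rw [h2]
      exact h
    rcases (Nat.prime_iff_prime_int.1 hl).dvd_or_dvd h1 with h2 | h2
    · have h3 : p ∣ 2 := by exact_mod_cast h2
      exact hl2 ((Nat.prime_dvd_prime_iff_eq hl Nat.prime_two).1 h3)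
    · exact hu h2
  · unfold Pool.Agent.N135.ZO.Rel Pool.Agent.N135.ZO.den Pool.Agent.N135.ZO.num
    simp only [Matrix.of_apply, Matrix.cons_val', Matrix.cons_val_zero, Matrix.cons_val_one,
      Matrix.cons_val_fin_one]
    push_cast
    linear_combination (2 * (w : ℂ)) * habc

end Pool.Agent.D0H93.ZC
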