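import Pool.Agent.D0H93.ZC.FinA

/-!
# Rational numbers near to an algebraic number at a place above a large prime
-/

set_option autoImplicit false

namespace Pool.Agent.D0H93.ZC

open NumberField IsDedekindDomain Polynomial

/-- A Galois extension of `ℚ` which contains a given number field and `√(-1)`. -/
theorem exists_gal_field (K : Type) [Field K] [NumberField K] :
    ∃ (L : Type) (_ : Field L) (_ : NumberField L) (_ : IsGalois ℚ L),
      Nonempty (K →+* L) ∧ ∃ z : L, z ^ 2 = -1 := by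
  classical
  let σ : K →ₐ[ℚ] ℂ := IsAlgClosed.lift
  obtain ⟨θ, hθ⟩ := Field.exists_primitive_element ℚ K
  have hint : IsIntegral ℚ (σ θ) := (Algebra.IsIntegral.isIntegral (R := ℚ) θ).map σ
  have hI : IsIntegral ℚ Complex.I := by
    refine ⟨X ^ 2 + 1, by monicity!, ?_⟩
    simp
  set p : ℚ[X] := minpoly ℚ (σ θ) * minpoly ℚ Complex.I with hp
  have hp0 : p ≠ 0 := mul_ne_zero (minpoly.ne_zero hint) (minpoly.ne_zero hI)
  set L : IntermediateField ℚ ℂ := IntermediateField.adjoin ℚ (p.rootSet ℂ) with hL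
  have hsf : p.IsSplittingField ℚ L :=
    IntermediateField.adjoin_rootSet_isSplittingField (IsAlgClosed.splits _)
  have hfin : FiniteDimensional ℚ L := Polynomial.IsSplittingField.finiteDimensional L p
  have hnorm : Normal ℚ L := Normal.of_isSplittingField p
  have hgal : IsGalois ℚ L := ⟨⟩
  have hnf : NumberField L := ⟨⟩
  have hθL : σ θ ∈ L := by
    apply IntermediateField.subset_adjoin
    rw [Polynomial.mem_rootSet]
    exact ⟨hp0, by rw [hp, map_mul, minpoly.aeval, zero_mul]⟩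
  have hIL : Complex.I ∈ L := by
    apply IntermediateField.subset_adjoin
    rw [Polynomial.mem_rootSet]
    exact ⟨hp0, by rw [hp, map_mul, minpoly.aeval ℚ Complex.I, mul_zero]⟩
  have hσ : ∀ x, σ x ∈ L := by
    intro x
    have h4 : x ∈ IntermediateField.comap σ L := by
      have h5 : IntermediateField.adjoin ℚ {θ} ≤ IntermediateField.comap σ L := by
        rw [IntermediateField.adjoin_simple_le_iff]
        exact hθL
      rw [hθ] at h5
      exact h5 trivial
    exact h4
  refine ⟨L, inferInstance, hnf, hgal, ⟨(σ : K →+* ℂ).codRestrict L.toSubfield hσ⟩,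
    ⟨⟨Complex.I, hIL⟩, ?_⟩⟩
  apply Subtype.ext
  simp

/-- Three embeddings with distinct values. -/
theorem exists_embeddings {K L : Type} [Field K] [NumberField K] [Field L] [NumberField L]
    [IsGalois ℚ L] (ρ : K →+* L) {α : K} (hα : 3 ≤ (minpoly ℚ α).natDegree) :
    ∃ R : Fin 3 → (K →+* L), Function.Injective fun i => R i α := by
  classical
  have hαi : IsIntegral ℚ α := Algebra.IsIntegral.isIntegral α
  let ρ' : K →ₐ[ℚ] L := ρ.toRatAlgHom
  have hmin : minpoly ℚ (ρ' α) = minpoly ℚ α := minpoly.algHom_eq ρ' ρ.injective α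
  have hsplit : ((minpoly ℚ (ρ' α)).map (algebraMap ℚ L)).Splits := Normal.splits inferInstance _
  have hsep : (minpoly ℚ (ρ' α)).Separable := (minpoly.irreducible (hαi.map ρ')).separable
  have hcard : Fintype.card ((minpoly ℚ (ρ' α)).rootSet L) = (minpoly ℚ (ρ' α)).natDegree :=
    Polynomial.card_rootSet_eq_natDegree hsep hsplit
  have h3 : Nonempty (Fin 3 ↪ (minpoly ℚ (ρ' α)).rootSet L) := by
    apply Function.Embedding.nonempty_of_card_le
    rw [hcard, Fintype.card_fin, hmin]
    exact hα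
  obtain ⟨f⟩ := h3
  have hroot : ∀ i, ∃ τ : L ≃ₐ[ℚ] L, τ (ρ' α) = (f i : L) := by
    intro i
    have h1 := (f i).2
    rw [Polynomial.mem_rootSet] at h1
    have h2 : IsConjRoot ℚ (ρ' α) (f i : L) := isConjRoot_of_aeval_eq_zero (hαi.map ρ') h1.2
    exact isConjRoot_iff_exists_algEquiv.1 h2.symm
  choose τ hτ using hroot
  refine ⟨fun i => ((τ i : L ≃ₐ[ℚ] L) : L →+* L).comp ρ, ?_⟩
  intro i j hij
  have h1 : τ i (ρ' α) = τ j (ρ' α) := hij
  rw [hτ, hτ] at h1
  exact f.injective (Subtype.ext h1)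

theorem exists_prime_mem {L : Type} [Field L] [NumberField L] (w : HeightOneSpectrum (𝓞 L)) :
    ∀ m : ℕ, 0 < m → (m : 𝓞 L) ∈ w.asIdeal →
      ∃ p : ℕ, p.Prime ∧ p ∣ m ∧ (p : 𝓞 L) ∈ w.asIdeal := by
  intro m
  induction m using Nat.strong_induction_on with
  | _ m ih =>
    intro hm hmm
    rcases Nat.lt_or_ge 1 m with h5 | h5
    · obtain ⟨q, hq, c, hc⟩ := Nat.exists_prime_and_dvd h5.ne'
      rw [hc, Nat.cast_mul] at hmm
      rcases w.isPrime.mem_or_mem hmm with h6 | h6
      · exact ⟨q, hq, ⟨c, hc⟩, h6⟩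
      · have hc0 : 0 < c := by
          rcases Nat.eq_zero_or_pos c with h | h
          · subst h
            omega
          · exact h
        have hclt : c < m := by
          rw [hc]
          have := hq.two_le
          nlinarith
        obtain ⟨p, hp, hpc, hpm⟩ := ih c hclt hc0 h6
        exact ⟨p, hp, hpc.trans ⟨q, by rw [hc]; ring⟩, hpm⟩
    · have h6 : m = 1 := by omega
      rw [h6, Nat.cast_one] at hmm
      exact absurd ((Ideal.eq_top_iff_one _).2 hmm) w.isPrime.ne_top

/-- The prime below. -/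
theorem exists_below {K L : Type} [Field K] [NumberField K] [Field L] [NumberField L]
    (R : K →+* L) (w : HeightOneSpectrum (𝓞 L)) : ∃ v : HeightOneSpectrum (𝓞 K),
      (∀ n : ℕ, (n : 𝓞 K) ∈ v.asIdeal ↔ (n : 𝓞 L) ∈ w.asIdeal) ∧
      ∀ x : K, w.valuation L (R x) < 1 → v.valuation K x < 1 := by
  classical
  let f : 𝓞 K →+* 𝓞 L := RingOfIntegers.mapRingHom R
  have hf : ∀ x : 𝓞 K, ((f x : 𝓞 L) : L) = R x := fun x => rfl
  have hpr : (Ideal.comap f w.asIdeal).IsPrime := Ideal.comap_isPrime f w.asIdeal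
  have hnat : ∀ n : ℕ, (n : 𝓞 K) ∈ Ideal.comap f w.asIdeal ↔ (n : 𝓞 L) ∈ w.asIdeal := by
    intro n
    rw [Ideal.mem_comap, map_natCast]
  have hne : Ideal.comap f w.asIdeal ≠ ⊥ := by
    intro h
    have h1 : ((Ideal.absNorm w.asIdeal : ℕ) : 𝓞 K) ∈ Ideal.comap f w.asIdeal := by
      rw [hnat]
      exact Ideal.absNorm_mem w.asIdeal
    rw [h, Ideal.mem_bot, Nat.cast_eq_zero, Ideal.absNorm_eq_zero_iff] at h1
    exact w.ne_bot h1
  let v : HeightOneSpectrum (𝓞 K) := ⟨Ideal.comap f w.asIdeal, hpr, hne⟩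
  refine ⟨v, hnat, fun x hx => ?_⟩
  by_contra hcon
  push Not at hcon
  have hx0 : x ≠ 0 := by
    rintro rfl
    rw [map_zero] at hcon
    exact absurd hcon (not_le.2 zero_lt_one)
  have h1 : v.valuation K x⁻¹ ≤ 1 := by
    rw [map_inv₀]
    exact inv_le_one_of_one_le₀ hcon
  obtain ⟨a, d, had⟩ := HeightOneSpectrum.exists_primeCompl_mul_eq_of_integer v x⁻¹ h1
  have hd : w.valuation L (R (algebraMap (𝓞 K) K d)) = 1 := by
    have h2 : f d ∉ w.asIdeal := d.2
    have h3 := (w.valuation_eq_one_iff_notMem (K := L)).2 h2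
    exact h3
  have h2 : w.valuation L (R x⁻¹) ≤ 1 := by
    have h3 := congrArg (fun z => w.valuation L (R z)) had
    simp only [map_mul] at h3
    have h4 : w.valuation L (R (algebraMap (𝓞 K) K a)) ≤ 1 := w.valuation_le_one (f a)
    rw [hd, mul_one] at h3
    rw [h3]
    exact h4
  rw [map_inv₀, map_inv₀] at h2
  have h3 : w.valuation L (R x) ≠ 0 := by
    rw [Valuation.ne_zero_iff, Ne, map_eq_zero]
    exact hx0
  have h4 : 1 ≤ w.valuation L (R x) := by
    have h5 := mul_le_mul_left h2 (w.valuation L (R x))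
    rwa [inv_mul_cancel₀ h3, one_mul] at h5
  exact absurd hx (not_lt.2 h4)

/-- All but finitely many rational numbers are near to one of three conjugate numbers at a place
above a large prime number. -/
theorem exists_near {K : Type} [Field K] [NumberField K] {α : K}
    (hα : 3 ≤ (minpoly ℚ α).natDegree) (D : ℕ) :
    {t : ℚ | ¬ ∃ (p : ℕ) (v : HeightOneSpectrum (𝓞 K)), p.Prime ∧ D < p ∧ (p : 𝓞 K) ∈ v.asIdeal ∧
      v.valuation K ((t : K) - α) < 1}.Finite := by
  classical
  obtain ⟨L, _, _, _, ⟨ρ⟩, hi⟩ := exists_gal_field K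
  obtain ⟨R, hR⟩ := exists_embeddings ρ hα
  -- the numbers are integral at almost all places
  obtain ⟨D', hDD', hD'⟩ : ∃ D' : ℕ, D ≤ D' ∧ ∀ i, ∀ w : HeightOneSpectrum (𝓞 L),
      Pool.Agent.Y152.RP.Away D' w → Pool.Agent.Y742.SF.fv w (R i α) ≤ 1 := by
    have h1 : ∀ i, ∃ d : ℕ, 0 < d ∧ IsIntegral ℤ ((d : L) * R i α) := by
      intro i
      have h2 : IsAlgebraic ℤ (R i α) :=
        (IsFractionRing.isAlgebraic_iff ℤ ℚ L).2 (Algebra.IsAlgebraic.isAlgebraic _)
      obtain ⟨a, ha, h3⟩ := h2.exists_integral_multiple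
      refine ⟨a.natAbs, Int.natAbs_pos.2 ha, ?_⟩
      have h4 : ((a.natAbs : ℕ) : L) = (a : L) ∨ ((a.natAbs : ℕ) : L) = -(a : L) := by
        rcases Int.natAbs_eq a with h5 | h5
        · left
          conv_rhs => rw [h5]
          exact (Int.cast_natCast _).symm
        · right
          conv_rhs => rw [h5]
          rw [Int.cast_neg, Int.cast_natCast, neg_neg]
      rw [zsmul_eq_mul] at h3
      rcases h4 with h4 | h4
      · rw [h4]
        exact h3
      · rw [h4, neg_mul]
        exact h3.neg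
    choose d hd0 hd using h1
    refine ⟨D + ∑ i, d i, Nat.le_add_right _ _, fun i w hw => ?_⟩
    have h2 : Pool.Agent.Y742.SF.fv w ((d i : ℕ) : L) = 1 := by
      have h3 := (Pool.Agent.Y742.SF.fv_eq_one_iff w ((d i : ℕ) : 𝓞 L)).2 (by
        intro hmem
        -- some prime factor of `d i` is in the ideal
        obtain ⟨p, hp, hpd, hpw⟩ := exists_prime_mem w (d i) (hd0 i) hmem
        have h5 : p ≤ D + ∑ i, d i := by
          have h6 := Nat.le_of_dvd (hd0 i) hpd
          have h7 : d i ≤ ∑ i, d i :=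
            Finset.single_le_sum (f := d) (fun _ _ => Nat.zero_le _) (Finset.mem_univ i)
          omega
        have h6 := hw p hp h5
        have h7 : Pool.Agent.Y742.SF.fv w (((p : ℕ) : 𝓞 L) : L) = 1 := by
          have h8 : (((p : ℕ) : 𝓞 L) : L) = (p : L) := by simp
          rw [h8]
          exact h6
        exact ((Pool.Agent.Y742.SF.fv_eq_one_iff w ((p : ℕ) : 𝓞 L)).1 h7) hpw)
      have h4 : (((d i : ℕ) : 𝓞 L) : L) = ((d i : ℕ) : L) := by simp
      rwa [h4] at h3
    have h3 : Pool.Agent.Y742.SF.fv w ((d i : L) * R i α) ≤ 1 :=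
      Pool.Agent.Y742.SF.fv_int w ⟨_, hd i⟩
    rwa [Pool.Agent.Y742.SF.fv_mul, h2, one_mul] at h3
  have hfin := finA' (K := L) hi D' (fun i => R i α) hR
  have hinj : Function.Injective (fun t : ℚ => (t : L)) := Rat.cast_injective
  refine (hfin.preimage hinj.injOn).subset ?_
  intro t ht
  have ht' : ¬ ∃ (p : ℕ) (v : HeightOneSpectrum (𝓞 K)), p.Prime ∧ D < p ∧
      (p : 𝓞 K) ∈ v.asIdeal ∧ v.valuation K ((t : K) - α) < 1 := ht
  intro i w hw
  change Pool.Agent.Y742.SF.fv w (R i α - (t : L)) = max 1 (Pool.Agent.Y742.SF.fv w (t : L))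
  have hα1 := hD' i w hw
  have hneg : Pool.Agent.Y742.SF.fv w (-(t : L)) = Pool.Agent.Y742.SF.fv w (t : L) := by
    have h1 : Pool.Agent.Y742.SF.fv w (-1 : L) = 1 := by
      have h2 := Pool.Agent.Y742.SF.fv_mul w (-1 : L) (-1 : L)
      rw [neg_mul_neg, one_mul, Pool.Agent.Y742.SF.fv_one] at h2
      have h3 := Pool.Agent.Y742.SF.fv_nonneg w (-1 : L)
      nlinarith
    have h2 : -(t : L) = (-1) * (t : L) := by ring
    rw [h2, Pool.Agent.Y742.SF.fv_mul, h1, one_mul]
  rcases lt_or_ge 1 (Pool.Agent.Y742.SF.fv w (t : L)) with h1 | h1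
  · rw [max_eq_right h1.le]
    apply le_antisymm
    · rw [sub_eq_add_neg]
      refine (Pool.Agent.Y742.SF.fv_add_le w _ _).trans (max_le (hα1.trans h1.le) hneg.le)
    · have h2 : (t : L) = R i α + -(R i α - (t : L)) := by ring
      have h3 := Pool.Agent.Y742.SF.fv_add_le w (R i α) (-(R i α - (t : L)))
      rw [← h2] at h3
      have h4 : Pool.Agent.Y742.SF.fv w (-(R i α - (t : L))) =
          Pool.Agent.Y742.SF.fv w (R i α - (t : L)) := by
        have h5 : Pool.Agent.Y742.SF.fv w (-1 : L) = 1 := by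
          have h6 := Pool.Agent.Y742.SF.fv_mul w (-1 : L) (-1 : L)
          rw [neg_mul_neg, one_mul, Pool.Agent.Y742.SF.fv_one] at h6
          have h7 := Pool.Agent.Y742.SF.fv_nonneg w (-1 : L)
          nlinarith
        have h6 : -(R i α - (t : L)) = (-1) * (R i α - (t : L)) := by ring
        rw [h6, Pool.Agent.Y742.SF.fv_mul, h5, one_mul]
      rw [h4] at h3
      rcases le_max_iff.1 h3 with h5 | h5
      · exact absurd (h5.trans hα1) (not_le.2 h1)
      · exact h5
  · rw [max_eq_left h1]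
    have h2 : Pool.Agent.Y742.SF.fv w (R i α - (t : L)) ≤ 1 := by
      rw [sub_eq_add_neg]
      exact (Pool.Agent.Y742.SF.fv_add_le w _ _).trans (max_le hα1 (hneg.le.trans h1))
    refine le_antisymm h2 ?_
    by_contra hcon
    push Not at hcon
    apply ht'
    obtain ⟨v, hv1, hv2⟩ := exists_below (R i) w
    obtain ⟨p, hp, -, hpw⟩ := exists_prime_mem w (Ideal.absNorm w.asIdeal)
      (Nat.pos_of_ne_zero fun h => w.ne_bot (Ideal.absNorm_eq_zero_iff.1 h))
      (Ideal.absNorm_mem w.asIdeal)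
    refine ⟨p, v, hp, ?_, (hv1 p).2 hpw, hv2 _ ?_⟩
    · by_contra hpD
      have h3 := hw p hp (by omega)
      have h7 : Pool.Agent.Y742.SF.fv w (((p : ℕ) : 𝓞 L) : L) = 1 := by
        have h8 : (((p : ℕ) : 𝓞 L) : L) = (p : L) := by simp
        rw [h8]
        exact h3
      exact ((Pool.Agent.Y742.SF.fv_eq_one_iff w ((p : ℕ) : 𝓞 L)).1 h7) hpw
    · have h3 : Pool.Agent.Y742.SF.fv w (R i ((t : K) - α)) < 1 := by
        have h4 : R i ((t : K) - α) = -(R i α - (t : L)) := by
          rw [map_sub, map_ratCast]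
          ring
        have h5 : Pool.Agent.Y742.SF.fv w (-1 : L) = 1 := by
          have h6 := Pool.Agent.Y742.SF.fv_mul w (-1 : L) (-1 : L)
          rw [neg_mul_neg, one_mul, Pool.Agent.Y742.SF.fv_one] at h6
          have h7 := Pool.Agent.Y742.SF.fv_nonneg w (-1 : L)
          nlinarith
        have h6 : -(R i α - (t : L)) = (-1) * (R i α - (t : L)) := by ring
        rw [h4, h6, Pool.Agent.Y742.SF.fv_mul, h5, one_mul]
        exact hcon
      refine lt_of_le_of_ne ((Pool.Agent.Y742.SF.fv_le_one_iff w _).1 h3.le) ?_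
      intro h4
      rw [Pool.Agent.Y742.SF.fv_eq, h4, map_one] at h3
      exact lt_irrefl _ (by exact_mod_cast h3)

end Pool.Agent.D0H93.ZC
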