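import Pool.Agent.N135.ZO.Glob
import Pool.Agent.D0H93.ZC.Val

/-!
# Gauss valuations and their specializations
-/

set_option autoImplicit false

namespace Pool.Agent.D0H93.ZC

open NumberField IsDedekindDomain MvPolynomial

/-- A Gauss valuation `V` above `v`, and a composite `V'` for which the given elements are in the
maximal ideal. -/
theorem exists_two {K : Type} [Field K] [NumberField K] (σ : K →+* ℂ) (v : HeightOneSpectrum (𝓞 K))
    {S : Type} (u : S → ℂ)
    (hu : ∀ Q : MvPolynomial S (𝓞 K), eval₂ (σ.comp (algebraMap (𝓞 K) K)) u Q = 0 → Q = 0) :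
    ∃ V V' : ValuationSubring ℂ, (∀ a : 𝓞 K, V.valuation (σ a) ≤ 1) ∧
      (∀ a : 𝓞 K, V.valuation (σ a) < 1 ↔ a ∈ v.asIdeal) ∧ (∀ i, V.valuation (u i) = 1) ∧
      (∀ i, V'.valuation (u i) < 1) ∧ (∀ x, V.valuation x < 1 → V'.valuation x < 1) ∧
      ∀ x, V'.valuation x = 1 → V.valuation x = 1 := by
  classical
  let _ : Algebra (𝓞 K) ℂ := (σ.comp (algebraMap (𝓞 K) K)).toAlgebra
  have hmap : ∀ a : 𝓞 K, algebraMap (𝓞 K) ℂ a = σ a := fun _ => rfl
  have hind : AlgebraicIndependent (𝓞 K) u := by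
    rw [algebraicIndependent_iff]
    intro Q hQ
    exact hu Q hQ
  have hprime : v.asIdeal.IsPrime := v.isPrime
  obtain ⟨V, hV1, hV2⟩ := Pool.Agent.N135.ZO.exists_place_gauss v.asIdeal u hind
  have hA1 : ∀ a : 𝓞 K, V.valuation (σ a) ≤ 1 := by
    intro a
    have := hV1 (MvPolynomial.C a)
    rwa [MvPolynomial.aeval_C] at this
  have hA2 : ∀ a : 𝓞 K, V.valuation (σ a) < 1 ↔ a ∈ v.asIdeal := by
    intro a
    have := hV2 (MvPolynomial.C a)
    rw [MvPolynomial.aeval_C, hmap, MvPolynomial.map_C, MvPolynomial.C_eq_zero,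
      Ideal.Quotient.eq_zero_iff_mem] at this
    exact this
  have hne : Nontrivial (𝓞 K ⧸ v.asIdeal) := Ideal.Quotient.nontrivial_iff.2 hprime.ne_top
  have hu1 : ∀ i, V.valuation (u i) = 1 := by
    intro i
    have h1 := hV1 (X i)
    have h2 := hV2 (X i)
    rw [aeval_X] at h1 h2
    refine le_antisymm h1 (not_lt.1 fun h => ?_)
    have h3 := h2.1 h
    rw [map_X] at h3
    exact MvPolynomial.X_ne_zero i h3
  have hmem : ∀ P : MvPolynomial S (𝓞 K), aeval u P ∈ V := fun P =>
    (ValuationSubring.valuation_le_one_iff _ _).1 (hV1 P)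
  let e : MvPolynomial S (𝓞 K) →+* V :=
    ((aeval u : MvPolynomial S (𝓞 K) →ₐ[𝓞 K] ℂ) : MvPolynomial S (𝓞 K) →+* ℂ).codRestrict
      V.toSubring hmem
  have he : ∀ P, ((e P : V) : ℂ) = aeval u P := fun _ => rfl
  let φ : MvPolynomial S (𝓞 K) →+* IsLocalRing.ResidueField V := (IsLocalRing.residue V).comp e
  have hφ0 : ∀ P, φ P = 0 ↔ map (Ideal.Quotient.mk v.asIdeal) P = 0 := by
    intro P
    rw [← hV2 P]
    change IsLocalRing.residue V (e P) = 0 ↔ _
    rw [IsLocalRing.residue_eq_zero_iff, ValuationSubring.valuation_lt_one_iff]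
    rfl
  let ρ : MvPolynomial S (𝓞 K) →+* 𝓞 K ⧸ v.asIdeal :=
    (Ideal.Quotient.mk v.asIdeal).comp constantCoeff
  let I : Ideal φ.range := (RingHom.ker ρ).map φ.rangeRestrict
  have hI : I ≠ ⊤ := by
    intro h
    have h1 : (1 : φ.range) ∈ I := h ▸ Submodule.mem_top
    rw [Ideal.mem_map_iff_of_surjective φ.rangeRestrict φ.rangeRestrict_surjective] at h1
    obtain ⟨x, hx, hx1⟩ := h1
    have h2 : φ (x - 1) = 0 := by
      rw [map_sub, map_one, sub_eq_zero]
      exact congrArg Subtype.val hx1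
    rw [hφ0] at h2
    have h3 := congrArg constantCoeff h2
    rw [constantCoeff_map, map_zero, map_sub, map_sub, map_one, map_one] at h3
    have h4 : (Ideal.Quotient.mk v.asIdeal) (constantCoeff x) = 0 := hx
    rw [h4, zero_sub, neg_eq_zero] at h3
    exact one_ne_zero h3
  obtain ⟨W, hW, hnon⟩ := Ideal.image_subset_nonunits_valuationSubring I hI
  refine ⟨V, comp V W, hA1, hA2, hu1, fun i => ?_, fun x hx => comp_lt_of_lt hx,
    fun x hx => eq_one_of_comp hx⟩
  have hui : u i ∈ V := (ValuationSubring.valuation_le_one_iff _ _).1 (hu1 i).le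
  refine comp_lt_of_residue hui ?_
  have h1 : IsLocalRing.residue V ⟨u i, hui⟩ = φ (X i) := by
    change _ = IsLocalRing.residue V (e (X i))
    congr 1
    apply Subtype.ext
    rw [he, aeval_X]
  rw [h1]
  refine hnon ⟨φ.rangeRestrict (X i), Ideal.mem_map_of_mem _ ?_, rfl⟩
  rw [RingHom.mem_ker]
  change (Ideal.Quotient.mk v.asIdeal) (constantCoeff (X i)) = 0
  rw [constantCoeff_X, map_zero]

/-- Comparison of the valuations of the elements of the number field. -/
theorem val_lt_iff {K : Type} [Field K] [NumberField K] {σ : K →+* ℂ} {v : HeightOneSpectrum (𝓞 K)}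
    {V : ValuationSubring ℂ} (hA1 : ∀ a : 𝓞 K, V.valuation (σ a) ≤ 1)
    (hA2 : ∀ a : 𝓞 K, V.valuation (σ a) < 1 ↔ a ∈ v.asIdeal) (x : K) :
    V.valuation (σ x) < 1 ↔ v.valuation K x < 1 := by
  constructor
  · intro h
    by_contra hcon
    rcases lt_or_eq_of_le (not_lt.1 hcon) with h1 | h1
    · have hx0 : x ≠ 0 := by
        rintro rfl
        rw [map_zero] at h1
        exact absurd h1 (not_lt.2 zero_le_one)
      have h2 : v.valuation K x⁻¹ < 1 := by
        rw [map_inv₀]
        exact inv_lt_one_of_one_lt₀ h1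
      have h3 := Pool.Agent.N135.ZO.val_lt_of hA1 hA2 h2
      rw [map_inv₀, map_inv₀] at h3
      have h4 : V.valuation (σ x) ≠ 0 := by
        rw [Valuation.ne_zero_iff, Ne, map_eq_zero]
        exact hx0
      have h5 : 1 < (V.valuation (σ x))⁻¹ := (one_lt_inv₀ (zero_lt_iff.2 h4)).2 h
      exact absurd h3 (not_lt.2 h5.le)
    · have h3 := Pool.Agent.N135.ZO.val_one_of hA1 hA2 h1.symm
      rw [h3] at h
      exact lt_irrefl _ h
  · exact Pool.Agent.N135.ZO.val_lt_of hA1 hA2

end Pool.Agent.D0H93.ZC
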